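import Pool.Agent.Y281.RB.SADtay

/-!
# Project RB: SAD, saddle points
-/

set_option autoImplicit false

namespace Pool.Agent.Y281.RB

open scoped ContDiff RealInnerProductSpace ENNReal Topology
open MeasureTheory Set Metric
open Pool.Agent.Y503.RB

theorem bil (Q : ℂ →L[ℝ] ℂ →L[ℝ] ℝ) (u w : ℂ) : Q u w = u.re * (w.re * Q 1 1 + w.im * Q 1 Complex.I) +
    u.im * (w.re * Q Complex.I 1 + w.im * Q Complex.I Complex.I) := by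
  have h : u = u.re • (1 : ℂ) + u.im • Complex.I := by
    apply Complex.ext <;> simp
  conv_lhs => rw [h]
  rw [map_add, map_smul, map_smul, add_apply, smul_apply, smul_apply, lin1 (Q 1) w,
    lin1 (Q Complex.I) w, smul_eq_mul, smul_eq_mul]

theorem bil_bound (Q : ℂ →L[ℝ] ℂ →L[ℝ] ℝ) (u w : ℂ) : |Q u w| ≤ ‖Q‖ * ‖u‖ * ‖w‖ := by
  rw [← Real.norm_eq_abs]
  exact Q.le_opNorm₂ u w

theorem vp_sub (L P : ℂ →L[ℝ] ℝ) : vp L - vp P = vp (L - P) := by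
  unfold vp
  apply Complex.ext
  · simp
  · simp
    ring

theorem vp_bound (L : ℂ →L[ℝ] ℝ) : ‖vp L‖ ≤ 2 * ‖L‖ := by
  have h1 := norm_vp L
  have a1 : |L 1| ≤ ‖L‖ := by
    have := L.le_opNorm 1
    rwa [Real.norm_eq_abs, norm_one, mul_one] at this
  have a2 : |L Complex.I| ≤ ‖L‖ := by
    have := L.le_opNorm Complex.I
    rwa [Real.norm_eq_abs, Complex.norm_I, mul_one] at this
  have b1 : L 1 ^ 2 ≤ ‖L‖ ^ 2 := sq_le_sq' (by linarith [neg_abs_le (L 1)])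
    ((le_abs_self _).trans a1)
  have b2 : L Complex.I ^ 2 ≤ ‖L‖ ^ 2 := sq_le_sq' (by linarith [neg_abs_le (L Complex.I)])
    ((le_abs_self _).trans a2)
  unfold NN at h1
  have h2 : ‖vp L‖ ^ 2 ≤ (2 * ‖L‖) ^ 2 := by nlinarith [sq_nonneg ‖L‖]
  exact (sq_le_sq₀ (norm_nonneg _) (by positivity)).1 h2

/-- the quadratic form on the rotated gradient -/
theorem rot (Q : ℂ →L[ℝ] ℂ →L[ℝ] ℝ) (hs : Q Complex.I 1 = Q 1 Complex.I) (ζ : ℂ) :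
    Q (vp (Q ζ)) (vp (Q ζ)) =
      (Q 1 1 * Q Complex.I Complex.I - Q 1 Complex.I ^ 2) * Q ζ ζ := by
  rw [bil Q (vp (Q ζ)), bil Q ζ ζ]
  simp only [vp]
  rw [bil Q ζ 1, bil Q ζ Complex.I, hs]
  simp only [Complex.one_re, Complex.one_im, Complex.I_re, Complex.I_im]
  ring

theorem grad_low (Q : ℂ →L[ℝ] ℂ →L[ℝ] ℝ) (hs : Q Complex.I 1 = Q 1 Complex.I) (ζ : ℂ) :
    (Q 1 1 * Q Complex.I Complex.I - Q 1 Complex.I ^ 2) ^ 2 * ‖ζ‖ ^ 2 ≤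
      (Q 1 1 ^ 2 + 2 * Q 1 Complex.I ^ 2 + Q Complex.I Complex.I ^ 2 + 1) * NN (Q ζ) := by
  unfold NN
  rw [bil Q ζ 1, bil Q ζ Complex.I, hs, ← Complex.normSq_eq_norm_sq, Complex.normSq_apply]
  simp only [Complex.one_re, Complex.one_im, Complex.I_re, Complex.I_im]
  generalize Q 1 1 = A
  generalize Q 1 Complex.I = B
  generalize Q Complex.I Complex.I = C
  generalize ζ.re = x
  generalize ζ.im = y
  set p := A * x + B * y with hp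
  set r := B * x + C * y with hr
  have e1 : x * (1 * A + 0 * B) + y * (1 * B + 0 * C) = p := by rw [hp]; ring
  have e2 : x * (0 * A + 1 * B) + y * (0 * B + 1 * C) = r := by rw [hr]; ring
  rw [e1, e2]
  have e3 : (A * C - B ^ 2) * x = C * p - B * r := by rw [hp, hr]; ring
  have e4 : (A * C - B ^ 2) * y = A * r - B * p := by rw [hp, hr]; ring
  have e5 : (A * C - B ^ 2) ^ 2 * (x * x + y * y) = (C * p - B * r) ^ 2 + (A * r - B * p) ^ 2 := by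
    rw [← e3, ← e4]; ring
  rw [e5]
  nlinarith [sq_nonneg (C * r + B * p), sq_nonneg (A * p + B * r), sq_nonneg p, sq_nonneg r]

theorem neg_dir (Q : ℂ →L[ℝ] ℂ →L[ℝ] ℝ) (hs : Q Complex.I 1 = Q 1 Complex.I)
    (hd : Q 1 1 * Q Complex.I Complex.I - Q 1 Complex.I ^ 2 < 0) :
    ∃ e : ℂ, ‖e‖ = 1 ∧ Q e e < 0 := by
  obtain ⟨u, hu⟩ : ∃ u : ℂ, Q u u < 0 := by
    rcases lt_trichotomy (Q 1 1) 0 with h | h | h
    · exact ⟨1, h⟩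
    · have hB : Q 1 Complex.I ≠ 0 := by
        intro h0
        rw [h, h0] at hd
        simp at hd
      refine ⟨⟨-(Q Complex.I Complex.I + 1) / (2 * Q 1 Complex.I), 1⟩, ?_⟩
      rw [bil, hs, h]
      simp only
      have : -(Q Complex.I Complex.I + 1) / (2 * Q 1 Complex.I) *
          (-(Q Complex.I Complex.I + 1) / (2 * Q 1 Complex.I) * 0 + 1 * Q 1 Complex.I) +
          1 * (-(Q Complex.I Complex.I + 1) / (2 * Q 1 Complex.I) * Q 1 Complex.I +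
            1 * Q Complex.I Complex.I) = -1 := by
        field_simp
        ring
      rw [this]
      norm_num
    · refine ⟨⟨Q 1 Complex.I, -Q 1 1⟩, ?_⟩
      rw [bil, hs]
      simp only
      have : Q 1 Complex.I * (Q 1 Complex.I * Q 1 1 + -Q 1 1 * Q 1 Complex.I) +
          -Q 1 1 * (Q 1 Complex.I * Q 1 Complex.I + -Q 1 1 * Q Complex.I Complex.I) =
          Q 1 1 * (Q 1 1 * Q Complex.I Complex.I - Q 1 Complex.I ^ 2) := by ring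
      rw [this]
      exact mul_neg_of_pos_of_neg h hd
  have hu0 : u ≠ 0 := by
    rintro rfl
    simp at hu
  have hn : 0 < ‖u‖ := norm_pos_iff.2 hu0
  refine ⟨(‖u‖⁻¹ : ℝ) • u, ?_, ?_⟩
  · rw [norm_smul, Real.norm_eq_abs, abs_of_pos (by positivity)]
    exact inv_mul_cancel₀ hn.ne'
  · rw [map_smul, map_smul, smul_apply, smul_eq_mul, smul_eq_mul, ← mul_assoc]
    exact mul_neg_of_pos_of_neg (by positivity) hu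

/-- estimates for the immersion -/
theorem sig_est (σ : ℂ → E4) (z₀ : ℂ) (hσ : ContDiffAt ℝ ∞ σ z₀)
    (hi : Function.Injective (fderiv ℝ σ z₀)) :
    ∃ a > 0, ∃ b > 0, ∀ᶠ z in 𝓝 z₀, (∀ v : ℂ, a * ‖v‖ ≤ ‖d1 σ v z‖) ∧
      (∀ v : ℂ, ‖d1 σ v z‖ ≤ b * ‖v‖) ∧ (∀ v : ℂ, ‖d2 σ v v z‖ ≤ b * ‖v‖ ^ 2) := by
  have h1 : ContDiffAt ℝ ∞ (fderiv ℝ σ) z₀ := hσ.fderiv_right (by norm_cast)
  have h2 : ContDiffAt ℝ ∞ (fderiv ℝ (fderiv ℝ σ)) z₀ := h1.fderiv_right (by norm_cast)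
  obtain ⟨K, hK, hanti⟩ := LinearMap.exists_antilipschitzWith (fderiv ℝ σ z₀ : ℂ →ₗ[ℝ] E4)
    (LinearMap.ker_eq_bot.2 hi)
  have hKr : (0 : ℝ) < K := by exact_mod_cast hK
  have e1 : ∀ᶠ z in 𝓝 z₀, ‖fderiv ℝ σ z - fderiv ℝ σ z₀‖ < 1 / (2 * K) := by
    have := (Metric.tendsto_nhds.1 h1.continuousAt.tendsto) (1 / (2 * K)) (by positivity)
    exact this.mono fun z hz => by rwa [dist_eq_norm] at hz
  have e2 : ∀ᶠ z in 𝓝 z₀, ‖fderiv ℝ (fderiv ℝ σ) z - fderiv ℝ (fderiv ℝ σ) z₀‖ < 1 := by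
    have := (Metric.tendsto_nhds.1 h2.continuousAt.tendsto) 1 (by positivity)
    exact this.mono fun z hz => by rwa [dist_eq_norm] at hz
  have e3 : ∀ᶠ z in 𝓝 z₀, DifferentiableAt ℝ (fderiv ℝ σ) z :=
    ((h1.of_le (m := 1) (by norm_cast)).eventually (by norm_num)).mono fun z hz =>
      hz.differentiableAt (by norm_num)
  refine ⟨1 / (2 * K), by positivity, ‖fderiv ℝ σ z₀‖ + 1 / (2 * K) +
    ‖fderiv ℝ (fderiv ℝ σ) z₀‖ + 1, by positivity, ?_⟩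
  filter_upwards [e1, e2, e3] with z f1 f2 f3
  have hn2 : 0 ≤ ‖fderiv ℝ (fderiv ℝ σ) z₀‖ := ContinuousLinearMap.opNorm_nonneg _
  refine ⟨fun v => ?_, fun v => ?_, fun v => ?_⟩
  · have g1 := hanti.le_mul_dist v 0
    rw [dist_zero_right, dist_eq_norm] at g1
    simp only [ContinuousLinearMap.coe_coe, map_zero, sub_zero] at g1
    have g2 : ‖(fderiv ℝ σ z - fderiv ℝ σ z₀) v‖ ≤ 1 / (2 * K) * ‖v‖ :=
      (ContinuousLinearMap.le_opNorm _ v).trans (by gcongr)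
    have g3 : fderiv ℝ σ z₀ v = d1 σ v z - (fderiv ℝ σ z - fderiv ℝ σ z₀) v := by
      unfold d1
      rw [sub_apply]
      abel
    have g4 : ‖fderiv ℝ σ z₀ v‖ ≤ ‖d1 σ v z‖ + 1 / (2 * K) * ‖v‖ := by
      rw [g3]
      exact (norm_sub_le _ _).trans (by gcongr)
    have g5 : 1 / (K : ℝ) * ‖v‖ ≤ ‖fderiv ℝ σ z₀ v‖ := by
      rw [one_div, inv_mul_le_iff₀ hKr]
      exact g1
    have g6 : 1 / (K : ℝ) * ‖v‖ = 1 / (2 * K) * ‖v‖ + 1 / (2 * K) * ‖v‖ := by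
      field_simp
      ring
    linarith
  · have g1 : ‖fderiv ℝ σ z‖ ≤ ‖fderiv ℝ σ z₀‖ + 1 / (2 * K) := by
      have := norm_sub_norm_le (fderiv ℝ σ z) (fderiv ℝ σ z₀)
      linarith
    unfold d1
    refine (ContinuousLinearMap.le_opNorm _ v).trans ?_
    gcongr
    linarith
  · have g1 : ‖fderiv ℝ (fderiv ℝ σ) z‖ ≤ ‖fderiv ℝ (fderiv ℝ σ) z₀‖ + 1 := by
      have := norm_sub_norm_le (fderiv ℝ (fderiv ℝ σ) z) (fderiv ℝ (fderiv ℝ σ) z₀)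
      linarith
    have g2 : d2 σ v v z = fderiv ℝ (fderiv ℝ σ) z v v := by
      unfold d2
      have := (f3.hasFDerivAt.clm_apply (hasFDerivAt_const v z)).fderiv
      rw [this]
      simp
    rw [g2]
    have g3 := ContinuousLinearMap.le_opNorm₂ (fderiv ℝ (fderiv ℝ σ) z) v v
    have g4 : (0 : ℝ) ≤ ‖fderiv ℝ σ z₀‖ + 1 / (2 * K) := by positivity
    calc _ ≤ ‖fderiv ℝ (fderiv ℝ σ) z‖ * ‖v‖ * ‖v‖ := g3
      _ = ‖fderiv ℝ (fderiv ℝ σ) z‖ * ‖v‖ ^ 2 := by ring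
      _ ≤ _ := by
        gcongr
        linarith

/-- pointwise estimates -/
theorem pt (Q Qz : ℂ →L[ℝ] ℂ →L[ℝ] ℝ) (L : ℂ →L[ℝ] ℝ) (ζ e : ℂ) (dq M R Δ c c3 S : ℝ)
    (hs : Q Complex.I 1 = Q 1 Complex.I) (hM : 0 < M) (hR0 : 0 < R)
    (hΔ : Δ = Q 1 1 * Q Complex.I Complex.I - Q 1 Complex.I ^ 2) (hd : Δ < 0)
    (hS : S = Q 1 1 ^ 2 + 2 * Q 1 Complex.I ^ 2 + Q Complex.I Complex.I ^ 2 + 1) (hS0 : 0 < S)
    (hc : c = Δ ^ 2 / S) (hc0 : 0 < c) (hR : R = ‖Q‖ + M) (hc3 : c3 = -(Q e e) / 2)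
    (he : ‖e‖ = 1)
    (t3 : ‖Qz - Q‖ ≤ M * ‖ζ‖) (t1 : ‖L - Q ζ‖ ≤ M * ‖ζ‖ ^ 2)
    (t2 : |dq - 1 / 2 * Q ζ ζ| ≤ M * ‖ζ‖ ^ 3)
    (hz1 : ‖ζ‖ ≤ 1) (hz2 : ‖ζ‖ ≤ c3 / M) (hz3 : ‖ζ‖ ≤ c / (8 * M ^ 2)) :
    (∀ v : ℂ, Qz v v ≤ R * ‖v‖ ^ 2) ∧ c / 4 * ‖ζ‖ ^ 2 ≤ NN L ∧ Qz e e ≤ -c3 ∧
      |Qz (vp L) (vp L) + 2 * (-Δ) * dq| ≤
        (4 * M * R ^ 2 + 8 * ‖Q‖ * M * R + 2 * (-Δ) * M) * ‖ζ‖ ^ 3 ∧
      |dq| ≤ R * ‖ζ‖ ^ 2 := by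
  have hQn : 0 ≤ ‖Q‖ := ContinuousLinearMap.opNorm_nonneg _
  have hn0 : 0 ≤ ‖ζ‖ := norm_nonneg _
  have hsq1 : ‖ζ‖ ^ 2 ≤ ‖ζ‖ := by nlinarith
  have hQR : ‖Q‖ ≤ R := by linarith
  -- norm of `Q ζ` and `L`
  have nP : ‖Q ζ‖ ≤ R * ‖ζ‖ := (Q.le_opNorm ζ).trans (mul_le_mul_of_nonneg_right hQR hn0)
  have nL : ‖L‖ ≤ R * ‖ζ‖ := by
    have h1 : L = (L - Q ζ) + Q ζ := by abel
    calc ‖L‖ = ‖(L - Q ζ) + Q ζ‖ := by rw [← h1]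
      _ ≤ ‖L - Q ζ‖ + ‖Q ζ‖ := norm_add_le _ _
      _ ≤ M * ‖ζ‖ ^ 2 + ‖Q‖ * ‖ζ‖ := add_le_add t1 (Q.le_opNorm ζ)
      _ ≤ M * ‖ζ‖ + ‖Q‖ * ‖ζ‖ := add_le_add (mul_le_mul_of_nonneg_left hsq1 hM.le) le_rfl
      _ = R * ‖ζ‖ := by rw [hR]; ring
  have nv : ‖vp L‖ ≤ 2 * (R * ‖ζ‖) := (vp_bound L).trans (by linarith)
  have nv0 : ‖vp (Q ζ)‖ ≤ 2 * (R * ‖ζ‖) := (vp_bound _).trans (by linarith)
  have nd : ‖vp L - vp (Q ζ)‖ ≤ 2 * (M * ‖ζ‖ ^ 2) := by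
    rw [vp_sub]
    exact (vp_bound _).trans (by linarith)
  refine ⟨fun v => ?_, ?_, ?_, ?_, ?_⟩
  · have h1 : Qz v v = Q v v + (Qz - Q) v v := by
      rw [sub_apply, sub_apply]; ring
    have h2 : |Q v v| ≤ ‖Q‖ * ‖v‖ * ‖v‖ := bil_bound _ _ _
    have h3 : |(Qz - Q) v v| ≤ ‖Qz - Q‖ * ‖v‖ * ‖v‖ := bil_bound _ _ _
    have h4 : ‖Qz - Q‖ ≤ M := t3.trans (by nlinarith)
    have h5 : ‖Qz - Q‖ * ‖v‖ * ‖v‖ ≤ M * ‖v‖ * ‖v‖ := by gcongr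
    have h6 := le_abs_self (Q v v)
    have h7 := le_abs_self ((Qz - Q) v v)
    rw [h1, hR]
    calc Q v v + (Qz - Q) v v ≤ ‖Q‖ * ‖v‖ * ‖v‖ + M * ‖v‖ * ‖v‖ := by linarith
      _ = _ := by ring
  · have h1 := grad_low Q hs ζ
    rw [← hΔ, ← hS] at h1
    have h2 : c * ‖ζ‖ ^ 2 ≤ NN (Q ζ) := by
      rw [hc, div_mul_eq_mul_div, div_le_iff₀ hS0]
      linarith
    -- errors
    have e1 : |(L - Q ζ) 1| ≤ M * ‖ζ‖ ^ 2 := by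
      have := (L - Q ζ).le_opNorm 1
      rw [Real.norm_eq_abs, norm_one, mul_one] at this
      exact this.trans t1
    have e2 : |(L - Q ζ) Complex.I| ≤ M * ‖ζ‖ ^ 2 := by
      have := (L - Q ζ).le_opNorm Complex.I
      rw [Real.norm_eq_abs, Complex.norm_I, mul_one] at this
      exact this.trans t1
    rw [sub_apply] at e1 e2
    have f1 : (L 1 - Q ζ 1) ^ 2 ≤ (M * ‖ζ‖ ^ 2) ^ 2 :=
      sq_le_sq' (by linarith [neg_abs_le (L 1 - Q ζ 1)]) ((le_abs_self _).trans e1)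
    have f2 : (L Complex.I - Q ζ Complex.I) ^ 2 ≤ (M * ‖ζ‖ ^ 2) ^ 2 :=
      sq_le_sq' (by linarith [neg_abs_le (L Complex.I - Q ζ Complex.I)])
        ((le_abs_self _).trans e2)
    have f3 : (M * ‖ζ‖ ^ 2) ^ 2 ≤ c / 8 * ‖ζ‖ ^ 2 := by
      have : M ^ 2 * ‖ζ‖ ^ 2 ≤ c / 8 := by
        calc M ^ 2 * ‖ζ‖ ^ 2 ≤ M ^ 2 * ‖ζ‖ := by gcongr
          _ ≤ M ^ 2 * (c / (8 * M ^ 2)) := by gcongr
          _ = c / 8 := by field_simp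
      calc (M * ‖ζ‖ ^ 2) ^ 2 = M ^ 2 * ‖ζ‖ ^ 2 * ‖ζ‖ ^ 2 := by ring
        _ ≤ c / 8 * ‖ζ‖ ^ 2 := by gcongr
    unfold NN at h2 ⊢
    have g1 : Q ζ 1 ^ 2 ≤ 2 * L 1 ^ 2 + 2 * (L 1 - Q ζ 1) ^ 2 := by
      nlinarith [sq_nonneg (2 * L 1 - Q ζ 1)]
    have g2 : Q ζ Complex.I ^ 2 ≤ 2 * L Complex.I ^ 2 + 2 * (L Complex.I - Q ζ Complex.I) ^ 2 := by
      nlinarith [sq_nonneg (2 * L Complex.I - Q ζ Complex.I)]
    linarith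
  · have h1 : Qz e e = Q e e + (Qz - Q) e e := by
      rw [sub_apply, sub_apply]; ring
    have h3 : |(Qz - Q) e e| ≤ ‖Qz - Q‖ * ‖e‖ * ‖e‖ := bil_bound _ _ _
    rw [he, mul_one, mul_one] at h3
    have h4 : M * ‖ζ‖ ≤ c3 := by
      calc M * ‖ζ‖ ≤ M * (c3 / M) := by gcongr
        _ = c3 := by field_simp
    have h7 := le_abs_self ((Qz - Q) e e)
    have h8 : Q e e = -2 * c3 := by rw [hc3]; ring
    rw [h1, h8]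
    linarith
  · have ab : ∀ x y : ℂ, Q x x - Q y y = Q (x - y) x + Q y (x - y) := by
      intro x y
      rw [map_sub Q, sub_apply, map_sub (Q y)]
      ring
    have h1 : Qz (vp L) (vp L) + 2 * (-Δ) * dq =
        (Qz - Q) (vp L) (vp L) + (Q (vp L - vp (Q ζ)) (vp L) + Q (vp (Q ζ)) (vp L - vp (Q ζ))) +
          2 * (-Δ) * (dq - 1 / 2 * Q ζ ζ) := by
      have := rot Q hs ζ
      rw [← hΔ] at this
      rw [← ab, sub_apply, sub_apply, this]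
      ring
    rw [h1]
    have b1 : |(Qz - Q) (vp L) (vp L)| ≤ 4 * M * R ^ 2 * ‖ζ‖ ^ 3 := by
      refine (bil_bound _ _ _).trans ?_
      calc ‖Qz - Q‖ * ‖vp L‖ * ‖vp L‖ ≤ (M * ‖ζ‖) * (2 * (R * ‖ζ‖)) * (2 * (R * ‖ζ‖)) := by gcongr
        _ = 4 * M * R ^ 2 * ‖ζ‖ ^ 3 := by ring
    have b2 : |Q (vp L - vp (Q ζ)) (vp L)| ≤ 4 * ‖Q‖ * M * R * ‖ζ‖ ^ 3 := by
      refine (bil_bound _ _ _).trans ?_
      calc ‖Q‖ * ‖vp L - vp (Q ζ)‖ * ‖vp L‖ ≤ ‖Q‖ * (2 * (M * ‖ζ‖ ^ 2)) * (2 * (R * ‖ζ‖)) := by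
            gcongr
        _ = 4 * ‖Q‖ * M * R * ‖ζ‖ ^ 3 := by ring
    have b3 : |Q (vp (Q ζ)) (vp L - vp (Q ζ))| ≤ 4 * ‖Q‖ * M * R * ‖ζ‖ ^ 3 := by
      refine (bil_bound _ _ _).trans ?_
      calc ‖Q‖ * ‖vp (Q ζ)‖ * ‖vp L - vp (Q ζ)‖ ≤ ‖Q‖ * (2 * (R * ‖ζ‖)) * (2 * (M * ‖ζ‖ ^ 2)) := by
            gcongr
        _ = 4 * ‖Q‖ * M * R * ‖ζ‖ ^ 3 := by ring
    have hD : 0 < -Δ := by linarith
    have b4 : |2 * (-Δ) * (dq - 1 / 2 * Q ζ ζ)| ≤ 2 * (-Δ) * M * ‖ζ‖ ^ 3 := by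
      rw [abs_mul, abs_of_pos (by positivity : 0 < 2 * (-Δ))]
      calc 2 * (-Δ) * |dq - 1 / 2 * Q ζ ζ| ≤ 2 * (-Δ) * (M * ‖ζ‖ ^ 3) :=
            mul_le_mul_of_nonneg_left t2 (by linarith)
        _ = _ := by ring
    calc _ ≤ |(Qz - Q) (vp L) (vp L)| + (|Q (vp L - vp (Q ζ)) (vp L)| +
          |Q (vp (Q ζ)) (vp L - vp (Q ζ))|) + |2 * (-Δ) * (dq - 1 / 2 * Q ζ ζ)| :=
            (abs_add_le _ _).trans (add_le_add ((abs_add_le _ _).trans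
              (add_le_add le_rfl (abs_add_le _ _))) le_rfl)
      _ ≤ 4 * M * R ^ 2 * ‖ζ‖ ^ 3 + (4 * ‖Q‖ * M * R * ‖ζ‖ ^ 3 + 4 * ‖Q‖ * M * R * ‖ζ‖ ^ 3) +
          2 * (-Δ) * M * ‖ζ‖ ^ 3 := add_le_add (add_le_add b1 (add_le_add b2 b3)) b4
      _ = _ := by ring
  · have h1 : dq = (dq - 1 / 2 * Q ζ ζ) + 1 / 2 * Q ζ ζ := by ring
    have h2 : |Q ζ ζ| ≤ ‖Q‖ * ‖ζ‖ * ‖ζ‖ := bil_bound _ _ _
    have h3 : |1 / 2 * Q ζ ζ| ≤ ‖Q‖ * ‖ζ‖ ^ 2 := by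
      rw [abs_mul, abs_of_pos (by norm_num : (0 : ℝ) < 1 / 2)]
      have h9 := abs_nonneg (Q ζ ζ)
      have h10 : ‖Q‖ * ‖ζ‖ * ‖ζ‖ = ‖Q‖ * ‖ζ‖ ^ 2 := by ring
      linarith
    have h4 : M * ‖ζ‖ ^ 3 ≤ M * ‖ζ‖ ^ 2 := by
      have : ‖ζ‖ ^ 3 ≤ ‖ζ‖ ^ 2 := pow_le_pow_of_le_one hn0 hz1 (by norm_num)
      exact mul_le_mul_of_nonneg_left this hM.le
    calc |dq| = |(dq - 1 / 2 * Q ζ ζ) + 1 / 2 * Q ζ ζ| := by rw [← h1]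
      _ ≤ |dq - 1 / 2 * Q ζ ζ| + |1 / 2 * Q ζ ζ| := abs_add_le _ _
      _ ≤ M * ‖ζ‖ ^ 2 + ‖Q‖ * ‖ζ‖ ^ 2 := add_le_add (t2.trans h4) h3
      _ = R * ‖ζ‖ ^ 2 := by rw [hR]; ring

/-- estimates for the function -/
theorem q_est (q : ℂ → ℝ) (z₀ : ℂ) (hq : ContDiffAt ℝ ∞ q z₀) (h0 : fderiv ℝ q z₀ = 0)
    (hd : hdet q z₀ < 0) :
    ∃ c1 > 0, ∃ c3 > 0, ∃ D > 0, ∃ M > 0, ∃ R > 0, ∃ e : ℂ, ‖e‖ = 1 ∧ ∀ᶠ z in 𝓝 z₀,
      (∀ v : ℂ, fderiv ℝ (fderiv ℝ q) z v v ≤ R * ‖v‖ ^ 2) ∧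
      c1 * ‖z - z₀‖ ^ 2 ≤ NN (fderiv ℝ q z) ∧
      fderiv ℝ (fderiv ℝ q) z e e ≤ -c3 ∧
      |fderiv ℝ (fderiv ℝ q) z (vp (fderiv ℝ q z)) (vp (fderiv ℝ q z)) +
        2 * D * (q z - q z₀)| ≤ M * ‖z - z₀‖ ^ 3 ∧
      |q z - q z₀| ≤ R * ‖z - z₀‖ ^ 2 := by
  obtain ⟨r, hr, M, hM, hT⟩ := taylor q z₀ hq h0
  have hsymm : IsSymmSndFDerivAt ℝ q z₀ := (hq.of_le (m := 2) (by norm_cast)).isSymmSndFDerivAt
    (by simp)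
  unfold hdet at hd
  obtain ⟨Q, hQ⟩ : ∃ Q, Q = fderiv ℝ (fderiv ℝ q) z₀ := ⟨_, rfl⟩
  have hs : Q Complex.I 1 = Q 1 Complex.I := by rw [hQ]; exact hsymm.eq _ _
  rw [← hQ] at hd hT
  obtain ⟨e, he, hee⟩ := neg_dir Q hs hd
  obtain ⟨Δ, hΔ⟩ : ∃ Δ, Δ = Q 1 1 * Q Complex.I Complex.I - Q 1 Complex.I ^ 2 := ⟨_, rfl⟩
  rw [← hΔ] at hd
  obtain ⟨S, hS⟩ : ∃ S, S = Q 1 1 ^ 2 + 2 * Q 1 Complex.I ^ 2 + Q Complex.I Complex.I ^ 2 + 1 :=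
    ⟨_, rfl⟩
  have hS0 : 0 < S := by rw [hS]; positivity
  obtain ⟨c, hc⟩ : ∃ c, c = Δ ^ 2 / S := ⟨_, rfl⟩
  have hΔ2 : 0 < Δ ^ 2 := by have := mul_pos_of_neg_of_neg hd hd; nlinarith
  have hc0 : 0 < c := by rw [hc]; exact div_pos hΔ2 hS0
  have hQn : 0 ≤ ‖Q‖ := ContinuousLinearMap.opNorm_nonneg _
  obtain ⟨R, hR⟩ : ∃ R, R = ‖Q‖ + M := ⟨_, rfl⟩
  have hR0 : 0 < R := by rw [hR]; linarith
  obtain ⟨c3, hc3⟩ : ∃ c3, c3 = -(Q e e) / 2 := ⟨_, rfl⟩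
  have hc30 : 0 < c3 := by rw [hc3]; linarith
  refine ⟨c / 4, by positivity, c3, hc30, -Δ, by linarith,
    4 * M * R ^ 2 + 8 * ‖Q‖ * M * R + 2 * (-Δ) * M, ?_, R, hR0, e, he, ?_⟩
  · have h1 : 0 < 4 * M * R ^ 2 := by positivity
    have h2 : 0 ≤ 8 * ‖Q‖ * M * R := by positivity
    have h3 : 0 < 2 * (-Δ) * M := mul_pos (by linarith) hM
    linarith
  have hρ0 : 0 < min r (min 1 (min (c3 / M) (c / (8 * M ^ 2)))) :=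
    lt_min hr (lt_min one_pos (lt_min (by positivity) (by positivity)))
  filter_upwards [Metric.ball_mem_nhds z₀ hρ0] with z hz
  have hzr : z ∈ ball z₀ r := Metric.ball_subset_ball (min_le_left _ _) hz
  obtain ⟨t3, t1, t2⟩ := hT z hzr
  rw [mem_ball, dist_eq_norm] at hz
  have hz1 : ‖z - z₀‖ ≤ 1 := hz.le.trans ((min_le_right _ _).trans (min_le_left _ _))
  have hz2 : ‖z - z₀‖ ≤ c3 / M :=
    hz.le.trans ((min_le_right _ _).trans ((min_le_right _ _).trans (min_le_left _ _)))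
  have hz3 : ‖z - z₀‖ ≤ c / (8 * M ^ 2) :=
    hz.le.trans ((min_le_right _ _).trans ((min_le_right _ _).trans (min_le_right _ _)))
  exact pt Q (fderiv ℝ (fderiv ℝ q) z) (fderiv ℝ q z) (z - z₀) e (q z - q z₀) M R Δ c c3 S hs hM
    hR0 hΔ hd hS hS0 hc hc0 hR hc3 he t3 t1 t2 hz1 hz2 hz3

theorem sad : St_SAD := by
  intro q σ z₀ hq hσ hi h0 hd
  obtain ⟨a, ha, b, hb, h1⟩ := sig_est σ z₀ hσ hi
  obtain ⟨c1, hc1, c3, hc3, D, hD, M, hM, R, hR, e, he, h2⟩ := q_est q z₀ hq h0 hd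
  obtain ⟨r, hr, hball⟩ := Metric.eventually_nhds_iff_ball.1 (h1.and h2)
  set g := a ^ 2 / (8 * b ^ 2) with hg
  have hg0 : 0 < g := by rw [hg]; positivity
  set K1 := R / g + 1 with hK1
  have hK10 : 0 < K1 := by rw [hK1]; positivity
  refine ⟨min r (min (a ^ 2 * c3 / b ^ 2) (min (c3 * a ^ 4 / (64 * b ^ 4))
    (g * c3 ^ 2 / 16 / (M * (K1 / c1))))), ?_, R * K1 / c1, by positivity,
    g * c3 ^ 2 / (32 * D), by positivity, ?_⟩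
  · exact lt_min hr (lt_min (by positivity) (lt_min (by positivity) (by positivity)))
  intro z hz κ hκ k hk hkk
  have hzr : z ∈ ball z₀ r := Metric.ball_subset_ball (min_le_left _ _) hz
  obtain ⟨⟨s1, s2, s3⟩, q1, q2, q3, q4, q5⟩ := hball z hzr
  rw [mem_ball, dist_eq_norm] at hz
  have hκ0 := hκ.1
  have hκ1 : κ < a ^ 2 * c3 / b ^ 2 :=
    lt_of_lt_of_le hκ.2 ((min_le_right _ _).trans (min_le_left _ _))
  have hκ2 : κ < c3 * a ^ 4 / (64 * b ^ 4) :=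
    lt_of_lt_of_le hκ.2 ((min_le_right _ _).trans ((min_le_right _ _).trans (min_le_left _ _)))
  have hz3 : ‖z - z₀‖ < g * c3 ^ 2 / 16 / (M * (K1 / c1)) :=
    lt_of_lt_of_le hz ((min_le_right _ _).trans ((min_le_right _ _).trans (min_le_right _ _)))
  refine core q σ z₀ z e κ k a b R c1 c3 D M R K1 (g * c3 ^ 2 / (32 * D)) ha hb hc1 hc3 hD hM hR hR
    s1 s2 s3 q1 q2 he q3 q4 q5 hκ0 hk.1 hk.2 ?_ ?_ ?_ ?_ ?_ hkk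
  · exact (lt_div_iff₀ (by positivity)).1 hκ1
  · exact (le_div_iff₀ (by positivity)).1 hκ2.le
  · rw [← hg, hK1, mul_add, mul_div_cancel₀ _ hg0.ne']
    linarith
  · rw [← hg]
    apply le_of_eq
    field_simp
    ring
  · rw [← hg, mul_comm]
    exact (le_div_iff₀ (by positivity)).1 hz3.le

end Pool.Agent.Y281.RB
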