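import Pool.Agent.Y503.RB.Def3

/-!
# Project RB: SAD, saddle points
-/

set_option autoImplicit false

namespace Pool.Agent.Y281.RB

open scoped ContDiff RealInnerProductSpace ENNReal Topology
open MeasureTheory Set Metric
open Pool.Agent.Y503.RB

/-- real linear functionals on `ℂ` -/
theorem lin1 (L : ℂ →L[ℝ] ℝ) (u : ℂ) : L u = u.re * L 1 + u.im * L Complex.I := by
  have h : u = u.re • (1 : ℂ) + u.im • Complex.I := by
    apply Complex.ext <;> simp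
  conv_lhs => rw [h]
  rw [map_add, map_smul, map_smul, smul_eq_mul, smul_eq_mul]

/-- the tangent vector of the level line -/
noncomputable def vp (L : ℂ →L[ℝ] ℝ) : ℂ := ⟨L Complex.I, -L 1⟩

noncomputable def NN (L : ℂ →L[ℝ] ℝ) : ℝ := L 1 ^ 2 + L Complex.I ^ 2

theorem NN_nonneg (L : ℂ →L[ℝ] ℝ) : 0 ≤ NN L := by unfold NN; positivity

theorem L_vp (L : ℂ →L[ℝ] ℝ) : L (vp L) = 0 := by
  rw [lin1]; simp only [vp]; ring

theorem norm_vp (L : ℂ →L[ℝ] ℝ) : ‖vp L‖ ^ 2 = NN L := by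
  rw [← Complex.normSq_eq_norm_sq, Complex.normSq_apply]; simp only [vp, NN]; ring

theorem L_sq (L : ℂ →L[ℝ] ℝ) (u : ℂ) : L u ^ 2 ≤ ‖u‖ ^ 2 * NN L := by
  rw [lin1, ← Complex.normSq_eq_norm_sq, Complex.normSq_apply]; unfold NN
  nlinarith [sq_nonneg (u.re * L Complex.I - u.im * L 1)]

/-- quadratic in `w` -/
theorem quad (a b w : ℝ) (ha : 0 < a) : -(b ^ 2 / a) ≤ a * w ^ 2 - 2 * b * w := by
  have : a * w ^ 2 - 2 * b * w + b ^ 2 / a = (a * w - b) ^ 2 / a := by field_simp; ring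
  have h2 : 0 ≤ (a * w - b) ^ 2 / a := by positivity
  linarith

theorem core (q : ℂ → ℝ) (σ : ℂ → E4) (z₀ z e : ℂ) (κ k a b B c1 c3 D M M0 K1 η : ℝ)
    (ha : 0 < a) (hb : 0 < b) (hc1 : 0 < c1) (hc3 : 0 < c3) (_hD : 0 < D) (hM : 0 < M)
    (hM0 : 0 < M0) (hB : 0 < B)
    (H1 : ∀ v : ℂ, a * ‖v‖ ≤ ‖d1 σ v z‖) (H1' : ∀ v : ℂ, ‖d1 σ v z‖ ≤ b * ‖v‖)
    (H2 : ∀ v : ℂ, ‖d2 σ v v z‖ ≤ b * ‖v‖ ^ 2)
    (H3 : ∀ v : ℂ, fderiv ℝ (fderiv ℝ q) z v v ≤ B * ‖v‖ ^ 2)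
    (H4 : c1 * ‖z - z₀‖ ^ 2 ≤ NN (fderiv ℝ q z))
    (he : ‖e‖ = 1) (H5 : fderiv ℝ (fderiv ℝ q) z e e ≤ -c3)
    (H6 : |fderiv ℝ (fderiv ℝ q) z (vp (fderiv ℝ q z)) (vp (fderiv ℝ q z)) +
      2 * D * (q z - q z₀)| ≤ M * ‖z - z₀‖ ^ 3)
    (H7 : |q z - q z₀| ≤ M0 * ‖z - z₀‖ ^ 2)
    (hκ : 0 < κ) (hk0 : 0 ≤ k) (hk1 : k ≤ 1)
    (k1 : κ * b ^ 2 < a ^ 2 * c3) (k2 : κ * (64 * b ^ 4) ≤ c3 * a ^ 4)
    (hK1 : B < a ^ 2 / (8 * b ^ 2) * K1) (h2 : 2 * D * η ≤ a ^ 2 / (8 * b ^ 2) * c3 ^ 2 / 16)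
    (h3 : M * (K1 / c1) * ‖z - z₀‖ ≤ a ^ 2 / (8 * b ^ 2) * c3 ^ 2 / 16)
    (hk : q z₀ - M0 * K1 / c1 * κ ≤ q z → q z ≤ q z₀ - η * κ → 3 / 4 ≤ k) :
    Good q σ κ k z := by
  intro w hw hu
  set L := fderiv ℝ q z with hL
  set Q := fderiv ℝ (fderiv ℝ q) z with hQ
  have hN0 := NN_nonneg L
  have hg : 0 < a ^ 2 / (8 * b ^ 2) := by positivity
  set g := a ^ 2 / (8 * b ^ 2) with hgdef
  have hw0 : 0 < w := by linarith
  -- lower bound for `w`
  have hwN : NN L ≤ 8 * κ ^ 2 * b ^ 2 * w ^ 2 := by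
    have e1 := hu 1
    have e2 := hu Complex.I
    have f1 := H1' 1
    have f2 := H1' Complex.I
    rw [norm_one, mul_one] at f1
    rw [Complex.norm_I, mul_one] at f2
    have g1 : |L 1| ≤ 2 * κ * b * w := e1.trans (by gcongr)
    have g2 : |L Complex.I| ≤ 2 * κ * b * w := e2.trans (by gcongr)
    have s1 : L 1 ^ 2 ≤ (2 * κ * b * w) ^ 2 := sq_le_sq' (by linarith [neg_abs_le (L 1)])
      ((le_abs_self _).trans g1)
    have s2 : L Complex.I ^ 2 ≤ (2 * κ * b * w) ^ 2 :=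
      sq_le_sq' (by linarith [neg_abs_le (L Complex.I)]) ((le_abs_self _).trans g2)
    unfold NN
    nlinarith
  have hκ1 : b ^ 2 / a ^ 2 < c3 / κ := by
    rw [div_lt_div_iff₀ (by positivity) hκ]
    nlinarith
  rcases le_or_gt (NN L) (c3 / 2 * κ) with hi | hi
  · -- case (i)
    refine ⟨e, ?_⟩
    have l1 : L e ^ 2 ≤ NN L := by
      have := L_sq L e
      rw [he] at this
      linarith
    have l2 : Q e e / κ + (1 - k) * L e ^ 2 / κ ^ 2 ≤ -(c3 / (2 * κ)) := by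
      have m1 : Q e e / κ ≤ -c3 / κ := by gcongr
      have m2 : (1 - k) * L e ^ 2 / κ ^ 2 ≤ (c3 / 2 * κ) / κ ^ 2 := by
        apply div_le_div_of_nonneg_right _ (by positivity)
        nlinarith [sq_nonneg (L e)]
      have m3 : -c3 / κ + (c3 / 2 * κ) / κ ^ 2 = -(c3 / (2 * κ)) := by
        field_simp
        ring
      linarith
    have l3 : 2 * a ^ 2 * w ^ 2 - 2 * b * w ≤ 2 * ‖d1 σ e z‖ ^ 2 * w ^ 2 - 2 * ‖d2 σ e e z‖ * w := by
      have n1 := H1 e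
      have n2 := H2 e
      rw [he] at n1 n2
      rw [mul_one] at n1
      rw [one_pow, mul_one] at n2
      have n3 : a ^ 2 ≤ ‖d1 σ e z‖ ^ 2 := by gcongr
      have n4 : a ^ 2 * w ^ 2 ≤ ‖d1 σ e z‖ ^ 2 * w ^ 2 := by gcongr
      have n5 : ‖d2 σ e e z‖ * w ≤ b * w := by gcongr
      linarith
    have l4 := quad (2 * a ^ 2) b w (by positivity)
    have l5 : b ^ 2 / (2 * a ^ 2) = b ^ 2 / a ^ 2 / 2 := by field_simp
    have l6 : c3 / (2 * κ) = c3 / κ / 2 := by field_simp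
    rw [l5] at l4
    rw [l6] at l2
    have := hκ1
    calc Q e e / κ + (1 - k) * L e ^ 2 / κ ^ 2 ≤ -(c3 / κ / 2) := l2
      _ < -(b ^ 2 / a ^ 2 / 2) := by linarith
      _ ≤ 2 * a ^ 2 * w ^ 2 - 2 * b * w := l4
      _ ≤ _ := l3
  · -- `N > c3/2 κ`
    have hNpos : 0 < NN L := lt_trans (by positivity) hi
    -- `w` is large
    have hwl : 2 * b ≤ a ^ 2 * w := by
      have m1 : c3 / 2 * κ < 8 * κ ^ 2 * b ^ 2 * w ^ 2 := lt_of_lt_of_le hi hwN
      have m2 : c3 < 16 * κ * b ^ 2 * w ^ 2 := by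
        have : κ * (c3 / 2) < κ * (8 * κ * b ^ 2 * w ^ 2) := by nlinarith
        have := lt_of_mul_lt_mul_left this hκ.le
        linarith
      -- `(2 b)^2 ≤ (a^2 w)^2`
      have m3 : (2 * b) ^ 2 ≤ (a ^ 2 * w) ^ 2 := by
        by_contra hcon
        push Not at hcon
        have m4 : a ^ 4 * w ^ 2 < 4 * b ^ 2 := by nlinarith
        have m5 : c3 * a ^ 4 ≤ 16 * κ * b ^ 2 * (a ^ 4 * w ^ 2) := by
          have : c3 * a ^ 4 ≤ 16 * κ * b ^ 2 * w ^ 2 * a ^ 4 := by gcongr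
          linarith
        have m6 : 16 * κ * b ^ 2 * (a ^ 4 * w ^ 2) < 16 * κ * b ^ 2 * (4 * b ^ 2) :=
          mul_lt_mul_of_pos_left m4 (by positivity)
        nlinarith
      exact (sq_le_sq₀ (by positivity) (by positivity)).1 m3
    have hR : ∀ v : ℂ, a ^ 2 * w ^ 2 * ‖v‖ ^ 2 ≤
        2 * ‖d1 σ v z‖ ^ 2 * w ^ 2 - 2 * ‖d2 σ v v z‖ * w := by
      intro v
      have n1 := H1 v
      have n2 := H2 v
      have n3 : (a * ‖v‖) ^ 2 ≤ ‖d1 σ v z‖ ^ 2 := by gcongr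
      have n4 : (a * ‖v‖) ^ 2 * w ^ 2 ≤ ‖d1 σ v z‖ ^ 2 * w ^ 2 := by gcongr
      have n5 : ‖d2 σ v v z‖ * w ≤ b * ‖v‖ ^ 2 * w := by gcongr
      have n6 : 2 * b * (‖v‖ ^ 2 * w) ≤ a ^ 2 * w * (‖v‖ ^ 2 * w) := by gcongr
      nlinarith
    have hRv := hR (vp L)
    rw [norm_vp] at hRv
    have hRg : g * NN L ^ 2 / κ ^ 2 ≤ a ^ 2 * w ^ 2 * NN L := by
      rw [div_le_iff₀ (by positivity)]
      have : g * NN L ≤ a ^ 2 * w ^ 2 * κ ^ 2 := by
        rw [hgdef, div_mul_eq_mul_div, div_le_iff₀ (by positivity)]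
        nlinarith [sq_nonneg a, mul_le_mul_of_nonneg_left hwN (sq_nonneg a)]
      nlinarith
    rcases le_or_gt (K1 * κ) (NN L) with hii | hii
    · -- case (ii)
      refine ⟨vp L, ?_⟩
      have m0 : L (vp L) = 0 := L_vp L
      have m1 := H3 (vp L)
      rw [norm_vp] at m1
      have m2 : B * NN L / κ < g * NN L ^ 2 / κ ^ 2 := by
        rw [div_lt_div_iff₀ hκ (by positivity)]
        have : B * κ < g * NN L := by
          calc B * κ < g * K1 * κ := by gcongr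
            _ = g * (K1 * κ) := by ring
            _ ≤ g * NN L := by gcongr
        have h5 : 0 < NN L * κ := by positivity
        nlinarith [mul_lt_mul_of_pos_right this h5]
      have m3 : Q (vp L) (vp L) / κ ≤ B * NN L / κ := by gcongr
      calc Q (vp L) (vp L) / κ + (1 - k) * L (vp L) ^ 2 / κ ^ 2 = Q (vp L) (vp L) / κ := by
            rw [m0]; simp
        _ ≤ B * NN L / κ := m3
        _ < g * NN L ^ 2 / κ ^ 2 := m2
        _ ≤ a ^ 2 * w ^ 2 * NN L := hRg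
        _ ≤ _ := hRv
    · have hz2 : ‖z - z₀‖ ^ 2 ≤ K1 * κ / c1 := by
        rw [le_div_iff₀ hc1]
        linarith
      rcases lt_or_ge (q z₀ - η * κ) (q z) with hiii | hiii
      · -- case (iii-a)
        refine ⟨vp L, ?_⟩
        have m0 : L (vp L) = 0 := L_vp L
        have m1 := (abs_le.1 H6).2
        have m2 : Q (vp L) (vp L) ≤ 2 * D * η * κ + M * ‖z - z₀‖ ^ 3 := by
          have : 2 * D * (q z₀ - q z) ≤ 2 * D * (η * κ) := by
            apply mul_le_mul_of_nonneg_left _ (by positivity)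
            linarith
          linarith
        have m3 : M * ‖z - z₀‖ ^ 3 ≤ M * (K1 / c1) * ‖z - z₀‖ * κ := by
          have : ‖z - z₀‖ ^ 3 = ‖z - z₀‖ ^ 2 * ‖z - z₀‖ := by ring
          rw [this]
          calc M * (‖z - z₀‖ ^ 2 * ‖z - z₀‖) ≤ M * (K1 * κ / c1 * ‖z - z₀‖) := by gcongr
            _ = _ := by ring
        have m4 : Q (vp L) (vp L) / κ ≤ g * c3 ^ 2 / 8 := by
          rw [div_le_iff₀ hκ]
          have := mul_le_mul_of_nonneg_right h2 hκ.le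
          have := mul_le_mul_of_nonneg_right h3 hκ.le
          linarith
        have m5 : g * c3 ^ 2 / 8 < g * NN L ^ 2 / κ ^ 2 := by
          rw [lt_div_iff₀ (by positivity)]
          have : (c3 / 2 * κ) ^ 2 ≤ NN L ^ 2 := by gcongr
          have h8 : 0 < g * c3 ^ 2 * κ ^ 2 := by positivity
          nlinarith [mul_le_mul_of_nonneg_left this hg.le]
        calc Q (vp L) (vp L) / κ + (1 - k) * L (vp L) ^ 2 / κ ^ 2 = Q (vp L) (vp L) / κ := by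
              rw [m0]; simp
          _ ≤ g * c3 ^ 2 / 8 := m4
          _ < g * NN L ^ 2 / κ ^ 2 := m5
          _ ≤ a ^ 2 * w ^ 2 * NN L := hRg
          _ ≤ _ := hRv
      · -- case (iii-b)
        have hk34 : 3 / 4 ≤ k := by
          refine hk ?_ hiii
          have := (abs_le.1 H7).1
          have h9 : M0 * ‖z - z₀‖ ^ 2 ≤ M0 * (K1 * κ / c1) := by gcongr
          have h10 : M0 * (K1 * κ / c1) = M0 * K1 / c1 * κ := by ring
          linarith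
        refine ⟨e, ?_⟩
        have m1 : Q e e / κ ≤ -c3 / κ := by gcongr
        have m2 : (1 - k) * L e ^ 2 / κ ^ 2 ≤ ‖d1 σ e z‖ ^ 2 * w ^ 2 := by
          have := hu e
          have h5 : L e ^ 2 ≤ (2 * κ * ‖d1 σ e z‖ * w) ^ 2 :=
            sq_le_sq' (by linarith [neg_abs_le (L e)]) ((le_abs_self _).trans this)
          rw [div_le_iff₀ (by positivity)]
          have h6 : (1 - k) * L e ^ 2 ≤ 1 / 4 * (2 * κ * ‖d1 σ e z‖ * w) ^ 2 := by
            apply mul_le_mul (by linarith) h5 (sq_nonneg _) (by norm_num)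
          calc (1 - k) * L e ^ 2 ≤ 1 / 4 * (2 * κ * ‖d1 σ e z‖ * w) ^ 2 := h6
            _ = ‖d1 σ e z‖ ^ 2 * w ^ 2 * κ ^ 2 := by ring
        have n1 := H1 e
        have n2 := H2 e
        rw [he] at n1 n2
        rw [mul_one] at n1
        rw [one_pow, mul_one] at n2
        have n3 : a ^ 2 ≤ ‖d1 σ e z‖ ^ 2 := by gcongr
        have n4 : a ^ 2 * w ^ 2 ≤ ‖d1 σ e z‖ ^ 2 * w ^ 2 := by gcongr
        have n5 : ‖d2 σ e e z‖ * w ≤ b * w := by gcongr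
        have l4 := quad (a ^ 2) b w (by positivity)
        have l7 : -c3 / κ = -(c3 / κ) := by ring
        rw [l7] at m1
        linarith

end Pool.Agent.Y281.RB
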