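import Pool.Agent.Y281.RB.SADcore

/-!
# Project RB: SAD, Taylor estimates
-/

set_option autoImplicit false

namespace Pool.Agent.Y281.RB

open scoped ContDiff RealInnerProductSpace ENNReal Topology
open MeasureTheory Set Metric
open Pool.Agent.Y503.RB

/-- Taylor estimates of a function with a critical point. -/
theorem taylor (q : ℂ → ℝ) (z₀ : ℂ) (hq : ContDiffAt ℝ ∞ q z₀) (h0 : fderiv ℝ q z₀ = 0) :
    ∃ r > 0, ∃ M > 0, ∀ z ∈ ball z₀ r,
      ‖fderiv ℝ (fderiv ℝ q) z - fderiv ℝ (fderiv ℝ q) z₀‖ ≤ M * ‖z - z₀‖ ∧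
      ‖fderiv ℝ q z - fderiv ℝ (fderiv ℝ q) z₀ (z - z₀)‖ ≤ M * ‖z - z₀‖ ^ 2 ∧
      |q z - q z₀ - 1 / 2 * fderiv ℝ (fderiv ℝ q) z₀ (z - z₀) (z - z₀)| ≤ M * ‖z - z₀‖ ^ 3 := by
  have hq1 : ContDiffAt ℝ ∞ (fderiv ℝ q) z₀ := hq.fderiv_right (by norm_cast)
  have hq2 : ContDiffAt ℝ ∞ (fderiv ℝ (fderiv ℝ q)) z₀ := hq1.fderiv_right (by norm_cast)
  have hd2 : DifferentiableAt ℝ (fderiv ℝ (fderiv ℝ q)) z₀ := hq2.differentiableAt (by norm_cast)
  obtain ⟨c, hc⟩ := (DifferentiableAt.isBigO_sub (𝕜 := ℝ) (E := ℂ)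
    (F := ℂ →L[ℝ] ℂ →L[ℝ] ℝ) hd2).bound
  obtain ⟨M, hM, hMc⟩ : ∃ M : ℝ, 0 < M ∧ c ≤ M :=
    ⟨max c 1, lt_of_lt_of_le one_pos (le_max_right _ _), le_max_left _ _⟩
  have hO' : ∀ᶠ z in 𝓝 z₀,
      ‖fderiv ℝ (fderiv ℝ q) z - fderiv ℝ (fderiv ℝ q) z₀‖ ≤ M * ‖z - z₀‖ :=
    hc.mono fun z hz => hz.trans (mul_le_mul_of_nonneg_right hMc (norm_nonneg _))
  have e1 : ∀ᶠ z in 𝓝 z₀, DifferentiableAt ℝ q z :=
    ((hq.of_le (m := 1) (by norm_cast)).eventually (by norm_num)).mono fun z hz =>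
      hz.differentiableAt (by norm_num)
  have e2 : ∀ᶠ z in 𝓝 z₀, DifferentiableAt ℝ (fderiv ℝ q) z :=
    ((hq1.of_le (m := 1) (by norm_cast)).eventually (by norm_num)).mono fun z hz =>
      hz.differentiableAt (by norm_num)
  obtain ⟨r, hr, hball⟩ := Metric.eventually_nhds_iff_ball.1 (hO'.and (e1.and e2))
  have hsymm : IsSymmSndFDerivAt ℝ q z₀ := (hq.of_le (m := 2) (by norm_cast)).isSymmSndFDerivAt
    (by simp)
  set Q := fderiv ℝ (fderiv ℝ q) z₀ with hQ
  -- first step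
  have T1 : ∀ z ∈ ball z₀ r, ‖fderiv ℝ q z - Q (z - z₀)‖ ≤ M * ‖z - z₀‖ ^ 2 := by
    intro z hz
    have hsub : closedBall z₀ ‖z - z₀‖ ⊆ ball z₀ r := by
      intro y hy
      rw [mem_closedBall] at hy
      rw [mem_ball] at hz ⊢
      rw [dist_eq_norm] at hz
      exact lt_of_le_of_lt hy hz
    have hder : ∀ y ∈ closedBall z₀ ‖z - z₀‖,
        HasFDerivAt (fun y => fderiv ℝ q y - Q (y - z₀)) (fderiv ℝ (fderiv ℝ q) y - Q) y := by
      intro y hy
      have h1 := (hball y (hsub hy)).2.2.hasFDerivAt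
      have h2 : HasFDerivAt (fun y => Q (y - z₀)) Q y := by
        have := Q.hasFDerivAt.comp y ((hasFDerivAt_id y).sub_const z₀)
        simpa [Function.comp_def] using this
      exact h1.sub h2
    have := Convex.norm_image_sub_le_of_norm_fderiv_le (𝕜 := ℝ)
      (f := fun y => fderiv ℝ q y - Q (y - z₀)) (C := M * ‖z - z₀‖) (s := closedBall z₀ ‖z - z₀‖)
      (x := z₀) (y := z) (fun y hy => (hder y hy).differentiableAt) (fun y hy => by
        rw [(hder y hy).fderiv]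
        refine (hball y (hsub hy)).1.trans ?_
        rw [mem_closedBall, dist_eq_norm] at hy
        gcongr) (convex_closedBall _ _) (by simp)
      (by rw [mem_closedBall, dist_eq_norm])
    simp only [sub_self, map_zero, h0, sub_zero] at this
    calc ‖fderiv ℝ q z - Q (z - z₀)‖ ≤ M * ‖z - z₀‖ * ‖z - z₀‖ := this
      _ = M * ‖z - z₀‖ ^ 2 := by ring
  have T2 : ∀ z ∈ ball z₀ r, |q z - q z₀ - 1 / 2 * Q (z - z₀) (z - z₀)| ≤ M * ‖z - z₀‖ ^ 3 := by
    intro z hz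
    have hsub : closedBall z₀ ‖z - z₀‖ ⊆ ball z₀ r := by
      intro y hy
      rw [mem_closedBall] at hy
      rw [mem_ball] at hz ⊢
      rw [dist_eq_norm] at hz
      exact lt_of_le_of_lt hy hz
    have hder : ∀ y ∈ closedBall z₀ ‖z - z₀‖,
        HasFDerivAt (fun y => q y - 1 / 2 * Q (y - z₀) (y - z₀)) (fderiv ℝ q y - Q (y - z₀)) y := by
      intro y hy
      have h1 := (hball y (hsub hy)).2.1.hasFDerivAt
      have h2 : HasFDerivAt (fun y => Q (y - z₀)) Q y := by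
        have := Q.hasFDerivAt.comp y ((hasFDerivAt_id y).sub_const z₀)
        simpa [Function.comp_def] using this
      have h3 : HasFDerivAt (fun y : ℂ => y - z₀) (ContinuousLinearMap.id ℝ ℂ) y :=
        (hasFDerivAt_id y).sub_const z₀
      have h4 := (h2.clm_apply h3).const_mul (1 / 2 : ℝ)
      refine (h1.sub h4).congr_fderiv ?_
      ext u
      simp only [ContinuousLinearMap.sub_apply, ContinuousLinearMap.smul_apply,
        ContinuousLinearMap.add_apply, ContinuousLinearMap.comp_apply,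
        ContinuousLinearMap.flip_apply, ContinuousLinearMap.id_apply, smul_eq_mul]
      have := hsymm.eq u (y - z₀)
      rw [← hQ] at this
      rw [this]
      ring
    have := Convex.norm_image_sub_le_of_norm_fderiv_le (𝕜 := ℝ)
      (f := fun y => q y - 1 / 2 * Q (y - z₀) (y - z₀)) (C := M * ‖z - z₀‖ ^ 2)
      (s := closedBall z₀ ‖z - z₀‖)
      (x := z₀) (y := z) (fun y hy => (hder y hy).differentiableAt) (fun y hy => by
        rw [(hder y hy).fderiv]
        refine (T1 y (hsub hy)).trans ?_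
        rw [mem_closedBall, dist_eq_norm] at hy
        gcongr) (convex_closedBall _ _) (by simp)
      (by rw [mem_closedBall, dist_eq_norm])
    simp only [sub_self, map_zero, mul_zero, sub_zero, Real.norm_eq_abs] at this
    have e : q z - q z₀ - 1 / 2 * Q (z - z₀) (z - z₀) =
        q z - 1 / 2 * Q (z - z₀) (z - z₀) - q z₀ := by ring
    rw [e]
    calc _ ≤ M * ‖z - z₀‖ ^ 2 * ‖z - z₀‖ := this
      _ = M * ‖z - z₀‖ ^ 3 := by ring
  exact ⟨r, hr, M, hM, fun z hz => ⟨(hball z hz).1, T1 z hz, T2 z hz⟩⟩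

end Pool.Agent.Y281.RB
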